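import Pool.Agent.Helper38.FDQ.Transfer
import Pool.Agent.Helper38.FDQ.Pub

/-!
# Uniform convergence of the free-difference-quotient heat semigroup (MP_5b305c_an)

For every tuple of self-adjoint elements (`m ≥ 1`) of a tracial von Neumann algebra with finite free
Fisher information, `sup {‖φ_t(y) - y‖₂ : y ∈ N, ‖y‖ ≤ 1}` does not tend to `0` as `t → 0+`.

Idea of the proof.  Put `a = x_1`, `U_s = exp(isa)`, `χ(s) = τ(U_s)`, `J = ∂_1*(1 ⊗ 1)`.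
* `∂ U_s = i ∫₀^s U_r ⊗ U_{s-r} dr` and `U_s ∈ dom Δ` with `‖Δ U_s‖₂ ≤ 5 ‖J‖ s`.  The point is that
  `A(r) = ∫₀^r χ(q) U_{-q} dq` has `‖A(r)‖₂ ≤ 2‖J‖` for all `r`, because the relation
  `⟨A(r), U_{-r}⟩ = i⟨J, U_{-r}⟩` gives `‖A(r)‖² = 2 Re (i⟨J, A(r)⟩)` after integration.
* `⟨Δ U_s, U_s⟩ = ‖∂ U_s‖² = ∫₀^s∫₀^s |χ(q - r)|² ≥ c s` for large `s`.
* Hence, by spectral theory, `⟨(1 - φ_t) U_s, U_s⟩ ≥ t c s - (t²/2)(5‖J‖s)²`, which is bounded
  below by a positive constant when `s = κ/t`.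
-/

open scoped TensorProduct InnerProductSpace Topology
open Filter FDHeat

namespace Pool.Agent.Results.MP_5b305c_an.NotUniform

/-- Let `M` be a von Neumann algebra on `H` and `Ω ∈ H` a unit vector such that
`τ = ⟨Ω, · Ω⟩` is tracial on `M` (for instance `H = L²(M,τ)`, `Ω = 1`).  Let `x_1,…,x_m ∈ M`
(`m ≥ 1`) be self-adjoint with finite free Fisher information, `N = W*(x_1,…,x_m)`, and `D_i` the
free difference quotients.  Let `φ_t = exp(-tΔ)`, `Δ = ∂̄*∂̄`, with `∂̄` the closure of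
`p ↦ (D_1 p,…,D_m p)`, or `(D̄_1,…,D̄_m)` on `⋂ᵢ dom D̄ᵢ`, or any closed operator between.
Then `sup {‖φ_t(y) - y‖₂ : y ∈ N, ‖y‖ ≤ 1}` does not tend to `0` as `t → 0+`. -/
theorem result {H : Type*} [NormedAddCommGroup H] [InnerProductSpace ℂ H] [CompleteSpace H]
    (M : VonNeumannAlgebra H) (Ω : H) (hΩ : ‖Ω‖ = 1)
    (htr : ∀ a ∈ M, ∀ b ∈ M, ⟪Ω, (a * b) Ω⟫_ℂ = ⟪Ω, (b * a) Ω⟫_ℂ)
    {m : ℕ} (hm : 0 < m) (x : Fin m → H →L[ℂ] H) (hxM : ∀ i, x i ∈ M)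
    (hsa : ∀ i, IsSelfAdjoint (x i))
    (D : Fin m → FreeAlgebra ℂ (Fin m) →ₗ[ℂ] FreeAlgebra ℂ (Fin m) ⊗[ℂ] FreeAlgebra ℂ (Fin m))
    (hD : ∀ i, IsFDQ i (D i)) (hfisher : FiniteFisher (poly x Ω) D) :
    HeatNotUniform (poly x Ω) D (ballN x Ω) := by
  have hev : ∀ p : FDQ.Poly m, FDQ.ev x p ∈ M := by
    intro p
    induction p using FreeAlgebra.induction with
    | grade0 r => rw [AlgHom.commutes]; exact M.algebraMap_mem' r
    | grade1 j => change FDQ.ev x (FDQ.X j) ∈ M; rw [FDQ.ev_X]; exact hxM j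
    | mul a b ha hb => rw [map_mul]; exact mul_mem ha hb
    | add a b ha hb => rw [map_add]; exact add_mem ha hb
  obtain rfl : D = fun i => FDQ.fdq i := funext fun i => FDQ.fdq_unique i (D i) (hD i).1 (hD i).2
  rintro G ⟨hG, hmin, hmax⟩
  set G' : Submodule ℂ (FDQ.ES m (L2N x Ω)) :=
    { carrier := {z | (z.fst, fun i => z.snd i) ∈ G}
      add_mem' := fun ha hb => G.add_mem ha hb
      zero_mem' := G.zero_mem
      smul_mem' := fun c _ ha => G.smul_mem c ha } with hG'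
  have hmem : ∀ z : FDQ.ES m (L2N x Ω), z ∈ G' ↔ (z.fst, fun i => z.snd i) ∈ G := fun z => Iff.rfl
  have hcl : IsClosed (G' : Set (FDQ.ES m (L2N x Ω))) := by
    have hc : Continuous fun z : FDQ.ES m (L2N x Ω) => (z.fst, fun i => z.snd i) := by fun_prop
    exact hG.preimage hc
  have hmin' : FDQ.gmin (poly x Ω) ≤ G' := by
    refine Submodule.topologicalClosure_minimal _ ?_ hcl
    rintro _ ⟨p, rfl⟩
    exact hmin p
  have hmax' : G' ≤ FDQ.gmax (poly x Ω) := by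
    intro z hz i
    have h := hmax _ hz i
    exact h
  refine ⟨FDQ.resolvent G', ?_, ?_⟩
  · intro u
    obtain ⟨ζ, hζ, h⟩ := FDQ.isLaplacian_resolvent G' hcl u
    refine ⟨fun i => ζ i, hζ, fun z hz => ?_⟩
    have h2 := h (WithLp.toLp 2 (z.1, WithLp.toLp 2 z.2)) hz
    rw [PiLp.inner_apply] at h2
    exact h2
  obtain ⟨ε, hε, T, hT, h⟩ := FDQ.transfer_main hΩ hsa (fun p q => by
    rw [map_mul, map_mul]; exact htr _ (hev p) _ (hev q)) hm hfisher G' hcl hmin' hmax'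
  intro hlim
  have h1 : ∀ᶠ t in 𝓝[>] (0:ℝ), sSup (FDQ.devSet x Ω (FDQ.heat G' t)) < ε :=
    hlim.eventually (gt_mem_nhds hε)
  have h2 : ∀ᶠ t in 𝓝[>] (0:ℝ), t ∈ Set.Ioo (0:ℝ) T := Ioo_mem_nhdsGT hT
  obtain ⟨t, ht1, ht2⟩ := (h1.and h2).exists
  exact absurd (h t ht2.1 ht2.2) (not_le.mpr ht1)

end Pool.Agent.Results.MP_5b305c_an.NotUniform
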